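import Pool.Agent.Lib.MP_9cae81_PC.Top
import Pool.Agent.Lib.MP_9cae81_PC.Key

/-!
# The critical mixing parameter of random (2+p)-SAT is larger than `2/5`

A uniform random `k`-clause on `n` Boolean variables is given by an ordered `k`-tuple of distinct
variables and `k` signs, all choices being equally likely.  The random formula `F_{n,m}(p)` is a
sequence of `m` independent clauses, each one a uniform random `3`-clause with probability `p` and
a uniform random `2`-clause with probability `1 - p`.

The critical mixing parameter `p_c` is the supremum of the `p ∈ [0,1]` such that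
`F_{n, ⌊rn⌋}(p)` is satisfiable with high probability for every `r < 1 / (1 - p)`.  It is known
that `p_c ≥ 2/5`, and it was conjectured that `p_c = 2/5`.  We prove `p_c > 2/5`.

Outline of the proof.  Let `v(F)` be the probability that `F` becomes unsatisfiable when a
geometric number of random unit clauses is added, with parameter `q = 1/(1+μ)` close to `1`.  If
the formula with `2`-clause density `1 - 2δ` and `3`-clause density `(2/3)(1+ε)` was not
satisfiable with high probability, then at some `3`-clause density the flux `E f³` would be at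
least `c/n`, and the average with weight `v²` on satisfiable formulas is an asymptotically
stationary law: it is almost invariant under the addition of random unit clauses and of random
pairs, and under the addition of a new variable.  In the limit `μ → 0` the increments
`(v(F ∧ g) - v(F))/(μ v(F))` become additive in `g`, the mark of the new variable is `D b - M a b`
with two independent compound Poisson gadgets `a`, `b`, where `M a b` is the mark of the
disjunction.  Comparing the moments of order `1 - η` of the marks of a literal and of the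
disjunction of two literals gives, for `ε` small enough, an inequality which forces
`M a b = D a D b / (D a + D b)` for most pairs; this is impossible for three independent units.
-/

open Filter
open scoped Topology BigOperators

namespace Pool.Agent.Results.MP_9cae81_pr.CriticalMixingLower

/-- A `k`-clause: an injection giving its `k` distinct variables, in order, and `k` signs; the
`i`-th literal is true under `σ` when `σ (c.1 i) = c.2 i`. -/
abbrev Clause (k n : ℕ) : Type := (Fin k ↪ Fin n) × (Fin k → Bool)

/-- A clause of the mixture: a `2`-clause or a `3`-clause. -/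
abbrev MixedClause (n : ℕ) : Type := Clause 2 n ⊕ Clause 3 n

/-- The assignment `σ` satisfies the clause: some literal of the clause is true. -/
def Satisfies {n : ℕ} (σ : Fin n → Bool) : MixedClause n → Prop
  | Sum.inl c => ∃ i, σ (c.1 i) = c.2 i
  | Sum.inr c => ∃ i, σ (c.1 i) = c.2 i

/-- The probability that one random clause of the mixture equals the given one: `(1 - p)` over the
number of `2`-clauses, or `p` over the number of `3`-clauses. -/
noncomputable def clauseProb {n : ℕ} (p : ℝ) : MixedClause n → ℝ
  | Sum.inl _ => (1 - p) / (Fintype.card (Clause 2 n) : ℝ)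
  | Sum.inr _ => p / (Fintype.card (Clause 3 n) : ℝ)

open Classical in
/-- The probability that `F_{n,m}(p)`, made of `m` independent random clauses, is satisfiable. -/
noncomputable def satProb (n m : ℕ) (p : ℝ) : ℝ :=
  ∑ F : Fin m → MixedClause n, (∏ i, clauseProb p (F i)) *
    (if ∃ σ : Fin n → Bool, ∀ i, Satisfies σ (F i) then 1 else 0)

/-- The critical mixing parameter `p_c`: the supremum of the `p ∈ [0,1]` such that for every ratio
`r > 0` with `r (1 - p) < 1` (that is, `r < 1 / (1 - p)`) the formula `F_{n, ⌊rn⌋}(p)` is
satisfiable with probability tending to `1`. -/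
noncomputable def criticalP : ℝ :=
  sSup {p : ℝ | 0 ≤ p ∧ p ≤ 1 ∧ ∀ r : ℝ, 0 < r → r * (1 - p) < 1 →
    Tendsto (fun n : ℕ => satProb n ⌊r * (n : ℝ)⌋₊ p) atTop (𝓝 1)}

lemma clauseProb_eq {n : ℕ} (p : ℝ) (c : MixedClause n) :
    clauseProb p c = Lib.MP_9cae81_R.clauseProb p c := by
  rcases c with c | c <;> rfl

lemma satisfies_eq {n : ℕ} :
    (Satisfies : (Fin n → Bool) → MixedClause n → Prop) = Lib.MP_9cae81_R.Satisfies := by
  funext σ c
  rcases c with c | c <;> rfl

lemma satProb_eq (n m : ℕ) (p : ℝ) : satProb n m p = Lib.MP_9cae81_R.satProb n m p := by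
  unfold satProb Lib.MP_9cae81_R.satProb
  apply Finset.sum_congr rfl
  intro F _
  rw [satisfies_eq]
  simp only [clauseProb_eq]

/-- **`p_c > 2/5`.**  There is `p0 > 2/5` such that for every `p ∈ [0, p0]` and every ratio
`r > 0` with `r (1 - p) < 1` the formula `F_{n, ⌊rn⌋}(p)` is satisfiable with probability tending
to `1`; in particular the critical mixing parameter is larger than `2/5`. -/
theorem result :
    2 / 5 < criticalP ∧
    ∃ p0 : ℝ, 2 / 5 < p0 ∧ p0 < 1 ∧ ∀ p r : ℝ, 0 ≤ p → p ≤ p0 → 0 < r → r * (1 - p) < 1 →
      Tendsto (fun n : ℕ => satProb n ⌊r * (n : ℝ)⌋₊ p) atTop (𝓝 1) := by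
  obtain ⟨e0, he0, hkey⟩ := Lib.MP_9cae81_PC.key
  have hy0 : 0 < 2 / 3 * (1 + e0) := by positivity
  have hlt : 2 / 5 < 2 / 3 * (1 + e0) / (1 + 2 / 3 * (1 + e0)) := by
    rw [lt_div_iff₀ (by positivity)]
    linarith
  have hlt1 : 2 / 3 * (1 + e0) / (1 + 2 / 3 * (1 + e0)) < 1 := by
    rw [div_lt_one (by positivity)]
    linarith
  obtain ⟨p0, hp0, hp1⟩ := exists_between hlt
  have hall : ∀ p r : ℝ, 0 ≤ p → p ≤ p0 → 0 < r → r * (1 - p) < 1 →
      Tendsto (fun n : ℕ => satProb n ⌊r * (n : ℝ)⌋₊ p) atTop (𝓝 1) := by
    intro p r hp hpp hr h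
    simp only [satProb_eq]
    exact Lib.MP_9cae81_PC.sat_whp hy0 hkey hp (lt_of_le_of_lt hpp hp1) hr h
  refine ⟨?_, p0, hp0, hp1.trans hlt1, hall⟩
  refine lt_csSup_of_lt ⟨1, fun q hq => hq.2.1⟩ (a := p0)
    ⟨by linarith, (hp1.trans hlt1).le, fun r hr h => hall p0 r (by linarith) le_rfl hr h⟩ hp0

end Pool.Agent.Results.MP_9cae81_pr.CriticalMixingLower
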