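import Pool.Agent.Lib.MP_9cae81_pr.Final

/-!
# An upper bound on the critical mixing parameter of random (2+p)-SAT

A uniform random `k`-clause on `n` Boolean variables is given by an ordered `k`-tuple of distinct
variables and `k` signs, all choices being equally likely.  The random formula `F_{n,m}(p)` is a
sequence of `m` independent clauses, each one a uniform random `3`-clause with probability `p` and
a uniform random `2`-clause with probability `1 - p`.

With `κ = Γ(2/3)² / Γ(1/3) = 0.68446...` we prove that for every `p > κ / (1 + κ) = 0.40634...`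
there is a ratio `r` below the `2`-SAT bound `1 / (1 - p)` at which `F_{n, ⌊rn⌋}(p)` is
unsatisfiable with high probability.  Hence `p_c ≤ κ / (1 + κ) < 0.4064`.

The proof compares the clauses with random unary fields (an interpolation of commuting averaging
operators), the trial field having the tail `(2/3)_s / s!`.
-/

open Filter
open scoped Topology BigOperators

namespace Pool.Agent.Results.MP_9cae81_pr.CriticalMixingUpper

/-- A `k`-clause: an injection giving its `k` distinct variables, in order, and `k` signs; the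
`i`-th literal is true under `σ` when `σ (c.1 i) = c.2 i`. -/
abbrev Clause (k n : ℕ) : Type := (Fin k ↪ Fin n) × (Fin k → Bool)

/-- A clause of the mixture: a `2`-clause or a `3`-clause. -/
abbrev MixedClause (n : ℕ) : Type := Clause 2 n ⊕ Clause 3 n

/-- The assignment `σ` satisfies the clause: some literal of the clause is true. -/
def Satisfies {n : ℕ} (σ : Fin n → Bool) : MixedClause n → Prop
  | Sum.inl c => ∃ i, σ (c.1 i) = c.2 i
  | Sum.inr c => ∃ i, σ (c.1 i) = c.2 i

/-- The probability that one random clause of the mixture equals the given one: `(1 - p)` over the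
number of `2`-clauses, or `p` over the number of `3`-clauses. -/
noncomputable def clauseProb {n : ℕ} (p : ℝ) : MixedClause n → ℝ
  | Sum.inl _ => (1 - p) / (Fintype.card (Clause 2 n) : ℝ)
  | Sum.inr _ => p / (Fintype.card (Clause 3 n) : ℝ)

open Classical in
/-- The probability that `F_{n,m}(p)`, made of `m` independent random clauses, is satisfiable. -/
noncomputable def satProb (n m : ℕ) (p : ℝ) : ℝ :=
  ∑ F : Fin m → MixedClause n, (∏ i, clauseProb p (F i)) *
    (if ∃ σ : Fin n → Bool, ∀ i, Satisfies σ (F i) then 1 else 0)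

/-- The critical mixing parameter `p_c`: the supremum of the `p ∈ [0,1]` such that for every ratio
`r > 0` with `r (1 - p) < 1` (that is, `r < 1 / (1 - p)`) the formula `F_{n, ⌊rn⌋}(p)` is
satisfiable with probability tending to `1`. -/
noncomputable def criticalP : ℝ :=
  sSup {p : ℝ | 0 ≤ p ∧ p ≤ 1 ∧ ∀ r : ℝ, 0 < r → r * (1 - p) < 1 →
    Tendsto (fun n : ℕ => satProb n ⌊r * (n : ℝ)⌋₊ p) atTop (𝓝 1)}

/-- The constant `κ = Γ(2/3)² / Γ(1/3)`. -/
noncomputable def kappa : ℝ := Real.Gamma (2 / 3) ^ 2 / Real.Gamma (1 / 3)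

lemma clauseProb_eq {n : ℕ} (p : ℝ) (c : MixedClause n) :
    clauseProb p c = Lib.MP_9cae81_pr.wt p c := by
  rcases c with c | c <;> rfl

lemma satisfies_eq {n : ℕ} :
    (Satisfies : (Fin n → Bool) → MixedClause n → Prop) = Lib.MP_9cae81_pr.SatC := by
  funext σ c
  rcases c with c | c <;> rfl

lemma satProb_eq (n m : ℕ) (p : ℝ) : satProb n m p = Lib.MP_9cae81_pr.satP n m p := by
  unfold satProb Lib.MP_9cae81_pr.satP
  apply Finset.sum_congr rfl
  intro F _
  rw [satisfies_eq]
  simp only [clauseProb_eq]

/-- **Upper bound on the critical mixing parameter of random (2+p)-SAT.**  For every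
`p ∈ (κ/(1+κ), 1]` there is a ratio `r > 0` with `r (1 - p) < 1` such that `F_{n, ⌊rn⌋}(p)` is
satisfiable with probability tending to `0`; hence `p_c ≤ κ/(1+κ)`, and `κ/(1+κ) < 0.4064`. -/
theorem result :
    (∀ p : ℝ, kappa / (1 + kappa) < p → p ≤ 1 → ∃ r : ℝ, 0 < r ∧ r * (1 - p) < 1 ∧
      Tendsto (fun n : ℕ => satProb n ⌊r * (n : ℝ)⌋₊ p) atTop (𝓝 0)) ∧
    criticalP ≤ kappa / (1 + kappa) ∧ kappa / (1 + kappa) < 0.4064 := by
  have hk : kappa = Lib.MP_9cae81_pr.kap := rfl
  have hc : criticalP = Lib.MP_9cae81_pr.pcrit := by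
    unfold criticalP Lib.MP_9cae81_pr.pcrit
    simp only [satProb_eq]
  refine ⟨fun p hp h1 => ?_, ?_, ?_⟩
  · simp only [satProb_eq]
    exact Lib.MP_9cae81_pr.unsat_above hp h1
  · rw [hc, hk]
    exact Lib.MP_9cae81_pr.pcrit_le
  · rw [hk]
    exact Lib.MP_9cae81_pr.bound_lt

end Pool.Agent.Results.MP_9cae81_pr.CriticalMixingUpper
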