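import Pool.Agent.Lib.MP_9cae81_R.J3

/-!
# The satisfiable region of random (2+p)-SAT beyond `p = 2/5`

A uniform random `k`-clause on `n` Boolean variables is given by an ordered `k`-tuple of distinct
variables and `k` signs, all choices being equally likely.  The random formula `F_{n,m}(p)` is a
sequence of `m` independent clauses, each one a uniform random `3`-clause with probability `p` and
a uniform random `2`-clause with probability `1 - p`.  Put `c₂ = (1 - p) r` and `c₃ = p r`.

We prove that `F_{n, ⌊rn⌋}(p)` is satisfiable with high probability whenever `(c₂, c₃)` lies below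
a curve `c₂ = φ(c₃)` satisfying a differential inequality.  With an explicit curve `φ = 1 - D`,
where `D = 0` on `[0, 2/3]` and `D(y) ≤ 0.376 (y - 2/3)²` beyond, this gives

* `p = 1`: random 3-SAT is satisfiable with high probability for every ratio `r < 11/3`;
* `2/5 ≤ p ≤ 3/4`: satisfiable with high probability as soon as
  `r (1 - p) < 1 - (21/20) ((p - 2/5)/(1 - p))²`.

The proof is not algorithmic: for formulas with independent clauses the derivatives of the
probability of unsatisfiability with respect to the clause densities are moments of the fraction of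
literals that are false in all solutions, and an exact recursion eliminates one variable.
-/

open Filter
open scoped Topology BigOperators

namespace Pool.Agent.Results.MP_9cae81_pr.SatisfiableRegion

/-- A `k`-clause: an injection giving its `k` distinct variables, in order, and `k` signs; the
`i`-th literal is true under `σ` when `σ (c.1 i) = c.2 i`. -/
abbrev Clause (k n : ℕ) : Type := (Fin k ↪ Fin n) × (Fin k → Bool)

/-- A clause of the mixture: a `2`-clause or a `3`-clause. -/
abbrev MixedClause (n : ℕ) : Type := Clause 2 n ⊕ Clause 3 n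

/-- The assignment `σ` satisfies the clause: some literal of the clause is true. -/
def Satisfies {n : ℕ} (σ : Fin n → Bool) : MixedClause n → Prop
  | Sum.inl c => ∃ i, σ (c.1 i) = c.2 i
  | Sum.inr c => ∃ i, σ (c.1 i) = c.2 i

/-- The probability that one random clause of the mixture equals the given one: `(1 - p)` over the
number of `2`-clauses, or `p` over the number of `3`-clauses. -/
noncomputable def clauseProb {n : ℕ} (p : ℝ) : MixedClause n → ℝ
  | Sum.inl _ => (1 - p) / (Fintype.card (Clause 2 n) : ℝ)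
  | Sum.inr _ => p / (Fintype.card (Clause 3 n) : ℝ)

open Classical in
/-- The probability that `F_{n,m}(p)`, made of `m` independent random clauses, is satisfiable. -/
noncomputable def satProb (n m : ℕ) (p : ℝ) : ℝ :=
  ∑ F : Fin m → MixedClause n, (∏ i, clauseProb p (F i)) *
    (if ∃ σ : Fin n → Bool, ∀ i, Satisfies σ (F i) then 1 else 0)

/-- `F_{n, ⌊rn⌋}(p)` is satisfiable with high probability. -/
def SatWhp (p r : ℝ) : Prop :=
  Tendsto (fun n : ℕ => satProb n ⌊r * (n : ℝ)⌋₊ p) atTop (𝓝 1)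

/-- The explicit curve: `D(y) = 0` for `y ≤ 2/3` and, with `s = y - 2/3 ≥ 0`,
`D(y) = s² (5 + 455/(1+s) - 135/(1+s)² + 51/(1+s)³)/1000`. -/
noncomputable def D (y : ℝ) : ℝ :=
  if y ≤ 2 / 3 then 0 else
    (y - 2 / 3) ^ 2 * (5 + 455 / (y + 1 / 3) - 135 / (y + 1 / 3) ^ 2 + 51 / (y + 1 / 3) ^ 3) / 1000

lemma clauseProb_eq {n : ℕ} (p : ℝ) (c : MixedClause n) :
    clauseProb p c = Lib.MP_9cae81_R.clauseProb p c := by
  rcases c with c | c <;> rfl

lemma satisfies_eq {n : ℕ} :
    (Satisfies : (Fin n → Bool) → MixedClause n → Prop) = Lib.MP_9cae81_R.Satisfies := by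
  funext σ c
  rcases c with c | c <;> rfl

lemma satProb_eq (n m : ℕ) (p : ℝ) : satProb n m p = Lib.MP_9cae81_R.satProb n m p := by
  unfold satProb Lib.MP_9cae81_R.satProb
  apply Finset.sum_congr rfl
  intro F _
  rw [satisfies_eq]
  simp only [clauseProb_eq]

lemma D_le (y : ℝ) : D y ≤ 47 / 125 * (max 0 (y - 2 / 3)) ^ 2 := by
  unfold D
  split_ifs with h
  · positivity
  · have hy : 2 / 3 < y := not_le.1 h
    have hm : max 0 (y - 2 / 3) = y - 2 / 3 := max_eq_right (by linarith)
    rw [hm]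
    have hz : 1 < y + 1 / 3 := by linarith
    set z := y + 1 / 3 with hzdef
    have h1 : 5 + 455 / z - 135 / z ^ 2 + 51 / z ^ 3 ≤ 376 := by
      have hz0 : 0 < z := by linarith
      have e : 5 + 455 / z - 135 / z ^ 2 + 51 / z ^ 3 =
          (5 * z ^ 3 + 455 * z ^ 2 - 135 * z + 51) / z ^ 3 := by
        field_simp
      rw [e, div_le_iff₀ (by positivity)]
      nlinarith [mul_pos (sub_pos.2 hz) hz0, mul_pos (mul_pos (sub_pos.2 hz) hz0) hz0]
    nlinarith [sq_nonneg (y - 2 / 3), mul_le_mul_of_nonneg_left h1 (sq_nonneg (y - 2 / 3))]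

/-- **The satisfiable region of random (2+p)-SAT beyond `p = 2/5`.**

(1) Curve criterion.  Let `φ` be continuously differentiable with `0 < φ ≤ 1` on `[0, Y]` and
suppose that for every `y ∈ [0, Y]` there is `k ≥ 0` with
`(1 - φ y)(1 - t) + (1 - 3y/2) t + 2 y t² + k t (-φ' y - t) ≥ 0` for all `t ∈ [0, 1/2]`.  If
`p r < Y` and `(1 - p) r < φ (p r)`, then `F_{n, ⌊rn⌋}(p)` is satisfiable w.h.p.
(2) It is satisfiable w.h.p. if `p r < 11/3` and `(1 - p) r < 1 - D (p r)`.
(3) Random 3-SAT is satisfiable w.h.p. for every ratio `r < 11/3`.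
(4) For `2/5 ≤ p ≤ 3/4`, `F_{n, ⌊rn⌋}(p)` is satisfiable w.h.p. for every `r > 0` with
`(1 - p) r < 1 - (21/20) ((p - 2/5)/(1 - p))²`. -/
theorem result :
    (∀ (Y : ℝ) (φ φ' : ℝ → ℝ), 0 < Y → (∀ y, HasDerivAt φ (φ' y) y) → Continuous φ' →
      (∀ y, 0 ≤ y → y ≤ Y → 0 < φ y ∧ φ y ≤ 1) →
      (∀ y, 0 ≤ y → y ≤ Y → ∃ k : ℝ, 0 ≤ k ∧ ∀ t : ℝ, 0 ≤ t → t ≤ 1 / 2 →
        0 ≤ (1 - φ y) * (1 - t) + (1 - 3 / 2 * y) * t + 2 * y * t ^ 2 + k * t * (-φ' y - t)) →
      ∀ p r : ℝ, 0 ≤ p → p ≤ 1 → 0 < r → p * r < Y → (1 - p) * r < φ (p * r) → SatWhp p r) ∧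
    (∀ p r : ℝ, 0 ≤ p → p ≤ 1 → 0 < r → p * r < 11 / 3 → (1 - p) * r < 1 - D (p * r) →
      SatWhp p r) ∧
    (∀ r : ℝ, 0 < r → r < 11 / 3 → SatWhp 1 r) ∧
    (∀ p r : ℝ, 2 / 5 ≤ p → p ≤ 3 / 4 → 0 < r →
      (1 - p) * r < 1 - 21 / 20 * ((p - 2 / 5) / (1 - p)) ^ 2 → SatWhp p r) := by
  have hD : D = Lib.MP_9cae81_R.DD := rfl
  have h2 : ∀ p r : ℝ, 0 ≤ p → p ≤ 1 → 0 < r → p * r < 11 / 3 → (1 - p) * r < 1 - D (p * r) →
      SatWhp p r := by
    intro p r hp hp1 hr h3 h
    unfold SatWhp
    simp only [satProb_eq]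
    exact Lib.MP_9cae81_R.explicit_region hp hp1 hr h3 (by rw [hD] at h; linarith)
  refine ⟨?_, h2, ?_, ?_⟩
  · intro Y φ φ' hY dp cp range h p r hp hp1 hr h3 hx
    unfold SatWhp
    simp only [satProb_eq]
    exact Lib.MP_9cae81_R.curve_region hY dp cp range h hp hp1 hr h3 hx
  · intro r hr h
    unfold SatWhp
    simp only [satProb_eq]
    exact Lib.MP_9cae81_R.three_sat hr h
  · intro p r hp hp1 hr h
    have hq : 0 < 1 - p := by linarith
    have hsq : 0 ≤ ((p - 2 / 5) / (1 - p)) ^ 2 := sq_nonneg _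
    have hr1 : (1 - p) * r < 1 := by nlinarith
    have hpr : p * r ≤ p / (1 - p) := by
      rw [le_div_iff₀ hq]
      nlinarith
    have hp3 : p / (1 - p) ≤ 3 := by
      rw [div_le_iff₀ hq]; linarith
    refine h2 p r (by linarith) (by linarith) hr (by linarith) ?_
    have hs : max 0 (p * r - 2 / 3) ≤ 5 / 3 * ((p - 2 / 5) / (1 - p)) := by
      refine max_le (mul_nonneg (by norm_num) (div_nonneg (by linarith) hq.le)) ?_
      have : p / (1 - p) - 2 / 3 = 5 / 3 * ((p - 2 / 5) / (1 - p)) := by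
        field_simp
        ring
      linarith
    have hsq2 : (max 0 (p * r - 2 / 3)) ^ 2 ≤ (5 / 3 * ((p - 2 / 5) / (1 - p))) ^ 2 :=
      pow_le_pow_left₀ (le_max_left _ _) hs 2
    have := D_le (p * r)
    nlinarith

end Pool.Agent.Results.MP_9cae81_pr.SatisfiableRegion
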